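import Pool.Agent.Helper23.MV.StE

/-!
# Project MV: FIN
-/

set_option autoImplicit false

namespace Pool.Agent.Helper71.MV

open Pool.Agent.Helper23.MV
open Filter Topology

private theorem finR (r : ℕ) : {c : PCh | c.r = r}.Finite := by
  by_cases h0 : r = 0
  · refine Set.Finite.subset Set.finite_empty ?_
    intro c hc
    exact absurd (hc.trans h0) c.hr
  · have : NeZero r := ⟨h0⟩
    have h5 : Finite {c : PCh // c.r = r} := by
      refine Finite.of_injective
        (fun c : {c : PCh // c.r = r} => (c.2 ▸ c.1.χ : DirichletCharacter ℂ r)) ?_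
      rintro ⟨⟨a, ha, χ, p⟩, h1⟩ ⟨⟨b, hb, ψ, q⟩, h2⟩ h
      simp only at h1 h2
      subst h1
      subst h2
      simp only at h
      subst h
      rfl
    exact Set.finite_coe_iff.mp h5

private theorem finPS (Q : ℝ) : {c : PCh | (c.r : ℝ) ≤ Q}.Finite := by
  have h : {c : PCh | (c.r : ℝ) ≤ Q} ⊆ ⋃ r ∈ Finset.range (⌊Q⌋₊ + 1), {c : PCh | c.r = r} := by
    intro c hc
    simp only [Set.mem_iUnion, Finset.mem_range]
    exact ⟨c.r, Nat.lt_succ_of_le (Nat.le_floor hc), rfl⟩
  exact (Set.Finite.biUnion (Finset.finite_toSet _) (fun r _ => finR r)).subset h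

private theorem r_one {c : PCh} (h : c.χ = 1) : c.r = 1 := by
  have h1 := c.prim
  rw [h, DirichletCharacter.isPrimitive_def, DirichletCharacter.conductor_one] at h1
  exact h1.symm

private theorem L_zeta {c : PCh} (h : c.χ = 1) : c.L = riemannZeta := by
  have h1 := r_one h
  obtain ⟨r, hr, χ, p⟩ := c
  simp only at h1
  subst h1
  exact DirichletCharacter.LFunction_modOne_eq

private theorem L_ne {c : PCh} {s : ℂ} (hs : 1 ≤ s.re) : c.L s ≠ 0 := by
  by_cases h : c.χ ≠ 1 ∨ s ≠ 1
  · exact DirichletCharacter.LFunction_ne_zero_of_one_le_re c.χ h hs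
  · push Not at h
    rw [L_zeta h.1, h.2]
    exact riemannZeta_one_ne_zero

private theorem L_an (c : PCh) : AnalyticOnNhd ℂ c.L {(1 : ℂ)}ᶜ := by
  refine DifferentiableOn.analyticOnNhd ?_ isOpen_compl_singleton
  intro s hs
  exact (DirichletCharacter.differentiableAt_LFunction c.χ s (Or.inl hs)).differentiableWithinAt

private theorem two_mem : (2 : ℂ) ∈ ({(1 : ℂ)}ᶜ : Set ℂ) := by
  simp

private theorem conn : IsPreconnected ({(1 : ℂ)}ᶜ : Set ℂ) :=
  (isConnected_compl_singleton_of_one_lt_rank (by simp) (1 : ℂ)).isPreconnected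

private theorem L_two (c : PCh) : c.L 2 ≠ 0 := L_ne (by simp)

/-- no accumulation of zeros -/
private theorem L_freq (c : PCh) (z : ℂ) (h : ∃ᶠ s in 𝓝[≠] z, c.L s = 0) : False := by
  by_cases hz : z = 1
  · subst hz
    by_cases hc : c.χ = 1
    · have h1 := riemannZeta_residue_one
      have h2 : ∀ᶠ s in 𝓝[≠] (1 : ℂ), (s - 1) * riemannZeta s ≠ 0 :=
        h1.eventually_ne one_ne_zero
      refine h ?_
      filter_upwards [h2] with s hs h0
      rw [L_zeta hc] at h0
      exact hs (by rw [h0, mul_zero])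
    · have h1 : ContinuousAt c.L 1 :=
        (DirichletCharacter.differentiableAt_LFunction c.χ 1 (Or.inr hc)).continuousAt
      have h2 : ∀ᶠ s in 𝓝 (1 : ℂ), c.L s ≠ 0 := h1.eventually_ne (L_ne (by simp))
      exact h (h2.filter_mono nhdsWithin_le_nhds)
  · have h1 := (L_an c).eqOn_zero_of_preconnected_of_frequently_eq_zero conn
      (show z ∈ ({(1 : ℂ)}ᶜ : Set ℂ) from hz) h
    exact L_two c (h1 two_mem)

private theorem finZ (c : PCh) (η T : ℝ) : (Zs c η T).Finite := by
  by_contra hinf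
  have hK : IsCompact (Set.Icc (1 - η) 1 ×ℂ Set.Icc (-T) T) :=
    isCompact_Icc.reProdIm isCompact_Icc
  have hsub : Zs c η T ⊆ Set.Icc (1 - η) 1 ×ℂ Set.Icc (-T) T := by
    intro ρ hρ
    obtain ⟨h1, h2, h3⟩ := hρ
    refine ⟨⟨h2, ?_⟩, abs_le.mp h3⟩
    by_contra h4
    exact L_ne (le_of_lt (not_le.mp h4)) h1
  obtain ⟨z, _, hz⟩ := Set.Infinite.exists_accPt_of_subset_isCompact hinf hK hsub
  refine L_freq c z ?_
  rw [accPt_iff_frequently_nhdsNE] at hz
  exact hz.mono fun s hs => hs.1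

theorem hFin : StFin := by
  refine ⟨?_, ?_, ?_⟩
  · intro Q c
    unfold PS
    rw [dif_pos (finPS Q)]
    simp
  · intro c η T ρ _
    unfold ZF
    rw [dif_pos (finZ c η T)]
    simp [Zs]
  · intro c ρ h0 _
    have hre : ρ.re < 1 := by
      by_contra h
      exact L_ne (not_lt.mp h) h0
    refine ⟨hre, ?_⟩
    have hρ : ρ ∈ ({(1 : ℂ)}ᶜ : Set ℂ) := by
      intro h
      rw [Set.mem_singleton_iff] at h
      rw [h] at hre
      simp at hre
    have han : AnalyticAt ℂ c.L ρ := L_an c ρ hρ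
    have ht : analyticOrderAt c.L ρ ≠ ⊤ := by
      intro h
      rw [analyticOrderAt_eq_top] at h
      exact L_two c ((L_an c).eqOn_zero_of_preconnected_of_eventuallyEq_zero conn hρ h two_mem)
    have h1 : analyticOrderAt c.L ρ ≠ 0 := by
      intro h
      exact han.analyticOrderAt_eq_zero.mp h h0
    unfold mz
    rw [Nat.one_le_iff_ne_zero]
    intro h
    apply h1
    rw [← Nat.cast_analyticOrderNatAt ht, h]
    rfl

end Pool.Agent.Helper71.MV
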