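import Pool.Agent.Helper23.MV.StH

/-!
# Project MV: HDI
-/

set_option autoImplicit false

namespace Pool.Agent.Helper71.MV

open Finset
open Pool.Agent.Helper23.MV

namespace HDI

private noncomputable def xx (e : PCh) (δ : ℝ) (p : ℕ) : ℝ := (e.ev p).re * (p : ℝ) ^ (-δ)

private theorem sf_ind {P : ℕ → Prop} (h1 : P 1)
    (h : ∀ p a : ℕ, p.Prime → ¬ p ∣ a → Squarefree a → P a → P (p * a)) (d : ℕ)
    (hd : Squarefree d) : P d := by
  revert hd
  induction d using induction_on_primes with
  | zero => intro hd; exact absurd hd not_squarefree_zero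
  | one => intro _; exact h1
  | prime_mul p a hp ih =>
    intro hd
    have hc : Nat.Coprime p a := Nat.coprime_of_squarefree_mul hd
    have ha : Squarefree a := hd.of_mul_right
    exact h p a hp ((Nat.Prime.coprime_iff_not_dvd hp).mp hc) ha (ih ha)

private theorem div_mul {p a : ℕ} (hp : p.Prime) (ha : a ≠ 0) :
    (p * a).divisors = a.divisors ∪ a.divisors.image (fun k => p * k) := by
  ext k
  simp only [Nat.mem_divisors, mem_union, mem_image]
  constructor
  · rintro ⟨hk, _⟩
    by_cases hpk : p ∣ k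
    · obtain ⟨j, rfl⟩ := hpk
      right
      exact ⟨j, ⟨Nat.dvd_of_mul_dvd_mul_left hp.pos hk, ha⟩, rfl⟩
    · left
      exact ⟨(Nat.Coprime.dvd_mul_left
        ((Nat.Prime.coprime_iff_not_dvd hp).mpr hpk).symm).mp hk, ha⟩
  · rintro (⟨hk, _⟩ | ⟨j, ⟨hj, _⟩, rfl⟩)
    · exact ⟨hk.mul_left p, mul_ne_zero hp.ne_zero ha⟩
    · exact ⟨Nat.mul_dvd_mul_left p hj, mul_ne_zero hp.ne_zero ha⟩

private theorem sum_div_mul {p a : ℕ} (hp : p.Prime) (hpa : ¬ p ∣ a) (ha : a ≠ 0) (G : ℕ → ℝ) :
    ∑ k ∈ (p * a).divisors, G k = ∑ k ∈ a.divisors, (G k + G (p * k)) := by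
  rw [div_mul hp ha, sum_union, sum_image, sum_add_distrib]
  · intro x _ y _ hxy
    exact Nat.eq_of_mul_eq_mul_left hp.pos hxy
  · rw [disjoint_left]
    intro k hk hk'
    simp only [mem_image, Nat.mem_divisors] at hk hk'
    obtain ⟨j, _, rfl⟩ := hk'
    exact hpa ((dvd_mul_right p j).trans hk.1)

/-- the set of `m` with `d ∣ m ∣ d²` -/
private theorem sum_DD {d : ℕ} (hd : d ≠ 0) (A : Finset ℕ) (F : ℕ → ℝ)
    (hF : ∀ m ∈ A, F m ≠ 0 → d ∣ m ∧ m ∣ d ^ 2)
    (hA : ∀ m, d ∣ m → m ∣ d ^ 2 → m ∉ A → F m = 0) :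
    ∑ m ∈ A, F m = ∑ k ∈ d.divisors, F (d * k) := by
  have hmem : ∀ m, m ∈ d.divisors.image (fun k => d * k) ↔ d ∣ m ∧ m ∣ d ^ 2 := by
    intro m
    simp only [mem_image, Nat.mem_divisors]
    constructor
    · rintro ⟨k, ⟨hk, _⟩, rfl⟩
      exact ⟨dvd_mul_right d k, by rw [sq]; exact Nat.mul_dvd_mul_left d hk⟩
    · rintro ⟨⟨k, rfl⟩, h⟩
      rw [sq] at h
      exact ⟨k, ⟨Nat.dvd_of_mul_dvd_mul_left (Nat.pos_of_ne_zero hd) h, hd⟩, rfl⟩
  have h1 : ∑ m ∈ d.divisors.image (fun k => d * k), F m = ∑ k ∈ d.divisors, F (d * k) := by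
    rw [sum_image]
    intro x _ y _ hxy
    exact Nat.eq_of_mul_eq_mul_left (Nat.pos_of_ne_zero hd) hxy
  rw [← h1]
  have h2 : ∑ m ∈ A ∩ d.divisors.image (fun k => d * k), F m = ∑ m ∈ A, F m := by
    refine sum_subset inter_subset_left ?_
    intro m hm hm'
    by_contra h
    exact hm' (mem_inter.mpr ⟨hm, (hmem m).mpr (hF m hm h)⟩)
  have h3 : ∑ m ∈ A ∩ d.divisors.image (fun k => d * k), F m =
      ∑ m ∈ d.divisors.image (fun k => d * k), F m := by
    refine sum_subset inter_subset_right ?_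
    intro m hm hm'
    have h4 := (hmem m).mp hm
    exact hA m h4.1 h4.2 (fun h => hm' (mem_inter.mpr ⟨h, hm⟩))
  rw [← h2, h3]

private theorem hd_eq {e : PCh} {δ : ℝ} {d k : ℕ} (hk : k ∣ d) :
    hd e δ d (d * k) = ∏ p ∈ d.primeFactors, (if p ^ 2 ∣ d * k then -(xx e δ p) else ff e δ p) := by
  unfold hd xx
  rw [if_pos ⟨dvd_mul_right d k, by rw [sq]; exact Nat.mul_dvd_mul_left d hk⟩]

private theorem prod_rest {e : PCh} {δ : ℝ} {p a k j : ℕ} (hp : p.Prime) (hpa : ¬ p ∣ a)
    (hj : j = 1 ∨ j = p) :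
    (∏ q ∈ a.primeFactors, (if q ^ 2 ∣ p * a * (j * k) then -(xx e δ q) else ff e δ q)) =
      ∏ q ∈ a.primeFactors, (if q ^ 2 ∣ a * k then -(xx e δ q) else ff e δ q) := by
  refine prod_congr rfl fun q hq => ?_
  have hqp : q.Prime := Nat.prime_of_mem_primeFactors hq
  have hne : q ≠ p := by
    rintro rfl
    exact hpa (Nat.dvd_of_mem_primeFactors hq)
  have hc : Nat.Coprime (q ^ 2) p := Nat.Coprime.pow_left 2 ((Nat.coprime_primes hqp hp).mpr hne)
  have hcj : Nat.Coprime (q ^ 2) (p * j) := by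
    rcases hj with rfl | rfl
    · rwa [mul_one]
    · exact Nat.Coprime.mul_right hc hc
  have h1 : q ^ 2 ∣ p * a * (j * k) ↔ q ^ 2 ∣ a * k := by
    rw [show p * a * (j * k) = p * j * (a * k) by ring]
    exact ⟨fun h => hcj.dvd_of_dvd_mul_left h, fun h => h.mul_left _⟩
  simp only [h1]

private theorem hd_one_mul {e : PCh} {δ : ℝ} {p a k : ℕ} (hp : p.Prime) (hpa : ¬ p ∣ a)
    (ha : a ≠ 0) (hk : k ∣ a) :
    hd e δ (p * a) (p * a * k) = ff e δ p * hd e δ a (a * k) := by
  rw [hd_eq (hk.mul_left p), hd_eq hk, Nat.primeFactors_mul hp.ne_zero ha, hp.primeFactors,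
    prod_union, prod_singleton]
  · congr 1
    · rw [if_neg]
      intro h
      rw [sq, mul_assoc] at h
      have h1 : p ∣ a * k := Nat.dvd_of_mul_dvd_mul_left hp.pos h
      rcases (Nat.Prime.dvd_mul hp).mp h1 with h2 | h2
      · exact hpa h2
      · exact hpa (h2.trans hk)
    · have := prod_rest (e := e) (δ := δ) (k := k) hp hpa (Or.inl rfl)
      rwa [one_mul] at this
  · rw [disjoint_singleton_left]
    intro h
    exact hpa (Nat.dvd_of_mem_primeFactors h)

private theorem hd_mul_mul {e : PCh} {δ : ℝ} {p a k : ℕ} (hp : p.Prime) (hpa : ¬ p ∣ a)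
    (ha : a ≠ 0) (hk : k ∣ a) :
    hd e δ (p * a) (p * a * (p * k)) = -(xx e δ p) * hd e δ a (a * k) := by
  rw [hd_eq (Nat.mul_dvd_mul_left p hk), hd_eq hk, Nat.primeFactors_mul hp.ne_zero ha,
    hp.primeFactors, prod_union, prod_singleton]
  · congr 1
    · rw [if_pos]
      exact ⟨a * k, by ring⟩
    · exact prod_rest (e := e) (δ := δ) (k := k) hp hpa (Or.inr rfl)
  · rw [disjoint_singleton_left]
    intro h
    exact hpa (Nat.dvd_of_mem_primeFactors h)

/-! ### the function `ff` -/

private theorem ev_pow {e : PCh} (h : ∀ n, (e.ev n).im = 0) (p j : ℕ) :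
    (e.ev (p ^ j)).re = (e.ev p).re ^ j := by
  have h1 : e.ev (p ^ j) = (e.ev p) ^ j := by
    unfold PCh.ev
    push_cast
    rw [map_pow]
  have h2 : e.ev p = (((e.ev p).re : ℝ) : ℂ) := by
    apply Complex.ext
    · simp
    · simp [h p]
  rw [h1]
  conv_lhs => rw [h2, ← Complex.ofReal_pow, Complex.ofReal_re]

private theorem ff_pow {e : PCh} {δ : ℝ} (h : ∀ n, (e.ev n).im = 0) {p : ℕ} (hp : p.Prime) (k : ℕ) :
    ff e δ (p ^ k) = ∑ j ∈ range (k + 1), xx e δ p ^ j := by
  unfold ff
  rw [Nat.sum_divisors_prime_pow hp]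
  refine sum_congr rfl fun j _ => ?_
  rw [ev_pow h]
  unfold xx
  rw [mul_pow]
  congr 1
  push_cast
  rw [← Real.rpow_natCast, ← Real.rpow_natCast, ← Real.rpow_mul (by positivity),
    ← Real.rpow_mul (by positivity), mul_comm]

private theorem ff_rec {e : PCh} {δ : ℝ} (him : ∀ n, (e.ev n).im = 0)
    (hmul : ∀ m n : ℕ, Nat.Coprime m n → ff e δ (m * n) = ff e δ m * ff e δ n)
    {p N : ℕ} (hp : p.Prime) (hN : N ≠ 0) (hpN : p ∣ N) :
    ff e δ p * ff e δ (N / p) - xx e δ p * (if p ^ 2 ∣ N then ff e δ (N / p ^ 2) else 0) =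
      ff e δ N := by
  obtain ⟨k, m, hm, rfl⟩ := Nat.exists_eq_pow_mul_and_not_dvd hN p hp.ne_one
  have hcop : ∀ j, Nat.Coprime (p ^ j) m := fun j =>
    Nat.Coprime.pow_left j ((Nat.Prime.coprime_iff_not_dvd hp).mpr hm)
  match k with
  | 0 =>
    rw [pow_zero, one_mul] at hpN
    exact absurd hpN hm
  | 1 =>
    have h1 : ¬ p ^ 2 ∣ p ^ 1 * m := by
      intro h
      rw [sq, pow_one] at h
      exact hm (Nat.dvd_of_mul_dvd_mul_left hp.pos h)
    rw [if_neg h1, pow_one, Nat.mul_div_cancel_left _ hp.pos, mul_zero, sub_zero,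
      hmul p m (by simpa using hcop 1)]
  | j + 2 =>
    have h1 : p ^ 2 ∣ p ^ (j + 2) * m := ⟨p ^ j * m, by ring⟩
    have h2 : p ^ (j + 2) * m / p = p ^ (j + 1) * m := by
      rw [show p ^ (j + 2) * m = p * (p ^ (j + 1) * m) by ring, Nat.mul_div_cancel_left _ hp.pos]
    have h3 : p ^ (j + 2) * m / p ^ 2 = p ^ j * m := by
      rw [show p ^ (j + 2) * m = p ^ 2 * (p ^ j * m) by ring,
        Nat.mul_div_cancel_left _ (pow_pos hp.pos 2)]
    have h4 : ff e δ p = 1 + xx e δ p := by
      have := ff_pow (δ := δ) him hp 1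
      rw [pow_one] at this
      rw [this]
      simp [sum_range_succ]
    rw [if_pos h1, h2, h3, hmul _ _ (hcop _), hmul _ _ (hcop _), hmul _ _ (hcop _), ff_pow him hp,
      ff_pow him hp, ff_pow him hp, h4, sum_range_succ _ (j + 2), sum_range_succ _ (j + 1)]
    ring

end HDI

open HDI in
theorem hHdi : StFfb → StHdi := by
  intro hffb e δ he hδ
  obtain ⟨hev, hf1, hmul, hpos, hcard, _⟩ := hffb e δ he hδ
  have him : ∀ n, (e.ev n).im = 0 := fun n => (hev n).1
  have hx : ∀ p : ℕ, p.Prime → |xx e δ p| ≤ 1 := by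
    intro p hp
    unfold xx
    rw [abs_mul]
    have h1 : |(p : ℝ) ^ (-δ)| ≤ 1 := by
      rw [abs_of_nonneg (by positivity)]
      exact Real.rpow_le_one_of_one_le_of_nonpos (by exact_mod_cast hp.one_lt.le) (by linarith)
    calc |(e.ev p).re| * |(p : ℝ) ^ (-δ)| ≤ 1 * 1 :=
          mul_le_mul (hev p).2 h1 (abs_nonneg _) zero_le_one
      _ = 1 := one_mul 1
  have hfp : ∀ p : ℕ, p.Prime → ff e δ p = 1 + xx e δ p := by
    intro p hp
    have := ff_pow (δ := δ) him hp 1
    rw [pow_one] at this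
    rw [this]
    simp [sum_range_succ]
  intro d hdsf
  refine ⟨?_, ?_, ?_⟩
  · intro n hn
    have hn0 : n ≠ 0 := by omega
    -- reduction
    have h1 : ∑ m ∈ n.divisors, hd e δ d m * ff e δ (n / m) =
        ∑ k ∈ d.divisors, (if d * k ∣ n then hd e δ d (d * k) * ff e δ (n / (d * k)) else 0) := by
      have h2 : ∑ m ∈ n.divisors, hd e δ d m * ff e δ (n / m) =
          ∑ m ∈ n.divisors, (if m ∣ n then hd e δ d m * ff e δ (n / m) else 0) :=
        sum_congr rfl fun m hm => by rw [if_pos (Nat.dvd_of_mem_divisors hm)]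
      rw [h2]
      refine sum_DD hdsf.ne_zero n.divisors (fun m => if m ∣ n then hd e δ d m * ff e δ (n / m)
        else 0) ?_ ?_
      · intro m hm h3
        by_contra h4
        apply h3
        have : hd e δ d m = 0 := by
          unfold hd
          rw [if_neg h4]
        simp [this]
      · intro m _ _ h3
        simp only [Nat.mem_divisors, not_and_or] at h3
        rcases h3 with h3 | h3
        · simp [h3]
        · exact absurd hn0 h3
    rw [h1]
    clear h1
    revert hdsf
    intro hdsf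
    refine sf_ind (P := fun d => (if d ∣ n then ff e δ n else 0) =
      ∑ k ∈ d.divisors, (if d * k ∣ n then hd e δ d (d * k) * ff e δ (n / (d * k)) else 0))
      ?_ ?_ d hdsf
    · simp [hd]
    · intro p a hp hpa hasf ih
      rw [sum_div_mul hp hpa hasf.ne_zero]
      by_cases hpn : p ∣ n
      · have h1 : (p * a ∣ n) ↔ a ∣ n := by
          constructor
          · exact fun h => (dvd_mul_left a p).trans h
          · exact fun h => (Nat.Coprime.mul_dvd_of_dvd_of_dvd
              ((Nat.Prime.coprime_iff_not_dvd hp).mpr hpa) hpn h)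
        simp only [h1]
        rw [ih]
        refine sum_congr rfl fun k hk => ?_
        have hka : k ∣ a := Nat.dvd_of_mem_divisors hk
        rw [hd_one_mul hp hpa hasf.ne_zero hka, hd_mul_mul hp hpa hasf.ne_zero hka]
        have hcop : Nat.Coprime p (a * k) := by
          rw [Nat.Prime.coprime_iff_not_dvd hp, Nat.Prime.dvd_mul hp, not_or]
          exact ⟨hpa, fun h => hpa (h.trans hka)⟩
        by_cases hmn : a * k ∣ n
        · obtain ⟨N, hN⟩ := hmn
          have hpos' : 0 < a * k := by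
            rcases Nat.eq_zero_or_pos (a * k) with h | h
            · rw [h, zero_mul] at hN
              exact absurd hN hn0
            · exact h
          have hN0 : N ≠ 0 := by
            rintro rfl
            exact hn0 (by rw [hN, mul_zero])
          have hpN : p ∣ N := by
            rw [hN] at hpn
            exact hcop.dvd_of_dvd_mul_left hpn
          have e1 : n / (a * k) = N := by rw [hN, Nat.mul_div_cancel_left _ hpos']
          have e2 : n / (p * a * k) = N / p := by
            rw [show p * a * k = a * k * p by ring, ← Nat.div_div_eq_div_mul, e1]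
          have e3 : n / (p * a * (p * k)) = N / p ^ 2 := by
            rw [show p * a * (p * k) = a * k * p ^ 2 by ring, ← Nat.div_div_eq_div_mul, e1]
          have d1 : p * a * k ∣ n := by
            rw [show p * a * k = a * k * p by ring, hN]
            exact Nat.mul_dvd_mul_left _ hpN
          have d2 : (p * a * (p * k) ∣ n) ↔ p ^ 2 ∣ N := by
            rw [show p * a * (p * k) = a * k * p ^ 2 by ring, hN]
            exact Nat.mul_dvd_mul_iff_left hpos'
          have d0 : a * k ∣ n := ⟨N, hN⟩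
          rw [if_pos d0, if_pos d1, e1, e2, e3]
          simp only [d2]
          have hrec := ff_rec him hmul hp hN0 hpN
          rw [← hrec]
          split_ifs <;> ring
        · rw [if_neg hmn, if_neg, if_neg]
          · simp
          · intro h
            exact hmn (((dvd_mul_left (a * k) (p ^ 2)).trans
              (by rw [show p ^ 2 * (a * k) = p * a * (p * k) by ring])).trans h)
          · intro h
            exact hmn (((dvd_mul_left (a * k) p).trans
              (by rw [← mul_assoc])).trans h)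
      · rw [if_neg (fun h => hpn ((dvd_mul_right p a).trans h))]
        symm
        refine sum_eq_zero fun k _ => ?_
        rw [if_neg, if_neg, add_zero]
        · intro h
          exact hpn ((dvd_mul_of_dvd_left (dvd_mul_right p a) (p * k)).trans h)
        · intro h
          exact hpn ((dvd_mul_of_dvd_left (dvd_mul_right p a) k).trans h)
  · have h1 : ∑ m ∈ Icc 1 (d ^ 2), |hd e δ d m| = ∑ k ∈ d.divisors, |hd e δ d (d * k)| := by
      refine sum_DD hdsf.ne_zero (Icc 1 (d ^ 2)) (fun m => |hd e δ d m|) ?_ ?_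
      · intro m _ h3
        by_contra h4
        apply h3
        simp [hd, h4]
      · intro m hm1 hm2 h3
        exfalso
        apply h3
        have hd2 : 0 < d ^ 2 := pow_pos (Nat.pos_of_ne_zero hdsf.ne_zero) 2
        exact mem_Icc.mpr ⟨Nat.pos_of_dvd_of_pos hm2 hd2, Nat.le_of_dvd hd2 hm2⟩
    rw [h1]
    clear h1
    refine sf_ind (P := fun d => ∑ k ∈ d.divisors, |hd e δ d (d * k)| ≤
      (d.divisors.card : ℝ) ^ 2) ?_ ?_ d hdsf
    · simp [hd]
    · intro p a hp hpa hasf ih
      rw [sum_div_mul hp hpa hasf.ne_zero, Nat.Coprime.card_divisors_mul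
        ((Nat.Prime.coprime_iff_not_dvd hp).mpr hpa)]
      have h2 : (p.divisors.card : ℝ) = 2 := by
        rw [Nat.Prime.divisors hp, card_pair hp.one_lt.ne]
        norm_num
      push_cast
      rw [h2]
      have h3 : ∑ k ∈ a.divisors, (|hd e δ (p * a) (p * a * k)| + |hd e δ (p * a) (p * a * (p * k))|)
          = (|ff e δ p| + |xx e δ p|) * ∑ k ∈ a.divisors, |hd e δ a (a * k)| := by
        rw [mul_sum]
        refine sum_congr rfl fun k hk => ?_
        have hka : k ∣ a := Nat.dvd_of_mem_divisors hk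
        rw [hd_one_mul hp hpa hasf.ne_zero hka, hd_mul_mul hp hpa hasf.ne_zero hka, abs_mul, abs_mul,
          abs_neg]
        ring
      rw [h3]
      have h4 : |ff e δ p| + |xx e δ p| ≤ 3 := by
        have h5 := abs_add_le (1 : ℝ) (xx e δ p)
        rw [hfp p hp]
        rw [abs_one] at h5
        have := hx p hp
        linarith
      have h5 : 0 ≤ ∑ k ∈ a.divisors, |hd e δ a (a * k)| := sum_nonneg fun _ _ => abs_nonneg _
      nlinarith
  · have h1 : ∑ m ∈ Icc 1 (d ^ 2), hd e δ d m / m = ∑ k ∈ d.divisors,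
        hd e δ d (d * k) / ((d * k : ℕ) : ℝ) := by
      refine sum_DD hdsf.ne_zero (Icc 1 (d ^ 2)) (fun m => hd e δ d m / (m : ℝ)) ?_ ?_
      · intro m _ h3
        by_contra h4
        apply h3
        simp [hd, h4]
      · intro m hm1 hm2 h3
        exfalso
        apply h3
        have hd2 : 0 < d ^ 2 := pow_pos (Nat.pos_of_ne_zero hdsf.ne_zero) 2
        exact mem_Icc.mpr ⟨Nat.pos_of_dvd_of_pos hm2 hd2, Nat.le_of_dvd hd2 hm2⟩
    rw [h1]
    clear h1
    refine sf_ind (P := fun d => ∑ k ∈ d.divisors, hd e δ d (d * k) / ((d * k : ℕ) : ℝ) =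
      gD (gf e δ) d) ?_ ?_ d hdsf
    · simp [hd, gD]
    · intro p a hp hpa hasf ih
      rw [sum_div_mul hp hpa hasf.ne_zero]
      have h2 : gD (gf e δ) (p * a) = gf e δ p * gD (gf e δ) a := by
        unfold gD
        rw [Nat.primeFactors_mul hp.ne_zero hasf.ne_zero, hp.primeFactors, prod_union,
          prod_singleton]
        rw [disjoint_singleton_left]
        intro h
        exact hpa (Nat.dvd_of_mem_primeFactors h)
      have hp0 : (p : ℝ) ≠ 0 := by exact_mod_cast hp.ne_zero
      have h3 : gf e δ p = (1 + xx e δ p) / p - xx e δ p / p ^ 2 := by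
        unfold gf
        have h4 : (e.ev p).re * (p : ℝ) ^ (-1 - δ) = xx e δ p / p := by
          unfold xx
          rw [show (-1 - δ : ℝ) = -δ - 1 by ring, Real.rpow_sub_one hp0]
          ring
        rw [h4]
        field_simp
        ring
      rw [h2, ← ih, h3, mul_sum]
      refine sum_congr rfl fun k hk => ?_
      have hka : k ∣ a := Nat.dvd_of_mem_divisors hk
      have hk0 : (k : ℝ) ≠ 0 := by
        have : k ≠ 0 := fun h => by
          rw [h] at hka
          exact hasf.ne_zero (zero_dvd_iff.mp hka)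
        exact_mod_cast this
      have ha0 : (a : ℝ) ≠ 0 := by exact_mod_cast hasf.ne_zero
      rw [hd_one_mul hp hpa hasf.ne_zero hka, hd_mul_mul hp hpa hasf.ne_zero hka, hfp p hp]
      push_cast
      field_simp
      ring

end Pool.Agent.Helper71.MV
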