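import Pool.Agent.Helper23.MV.StC

/-!
# Project MV: KFO
-/

set_option autoImplicit false

namespace Pool.Agent.Helper71.MV

open Finset ArithmeticFunction
open Pool.Agent.Helper23.MV
open Pool.Agent.Helper23.GK (cR SS)

private theorem kfo_eq (hTrf : StTrf) (hTrb : StTrb) (c₁ c₂ : PCh) (P : ℝ) (N : ℕ) (hP : 1 ≤ P) :
    KK c₁ c₂ P N = (((Nat.lcm c₁.r c₂.r : ℝ) / (Nat.totient (Nat.lcm c₁.r c₂.r) : ℝ) ^ 2 *
      GS (Nat.lcm c₁.r c₂.r) (P / Nat.lcm c₁.r c₂.r) N : ℝ) : ℂ) *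
        (starRingEnd ℂ) (tw c₁ c₂ (Nat.lcm c₁.r c₂.r) N) := by
  classical
  have hR0 : Nat.lcm c₁.r c₂.r ≠ 0 := Nat.lcm_ne_zero c₁.hr c₂.hr
  have hTrf' := fun s hs => hTrf c₁ c₂ s N hs
  have hTrb' := hTrb c₁ c₂ N
  have hmem : ∀ q : ℕ, (c₁.r ∣ q ∧ c₂.r ∣ q) ↔ Nat.lcm c₁.r c₂.r ∣ q := fun q =>
    ⟨fun h => Nat.lcm_dvd h.1 h.2, fun h => ⟨(Nat.dvd_lcm_left _ _).trans h,
      (Nat.dvd_lcm_right _ _).trans h⟩⟩
  have hdef : KK c₁ c₂ P N = ∑ q ∈ (Icc 1 ⌊P⌋₊).filter (fun q => c₁.r ∣ q ∧ c₂.r ∣ q),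
    ta c₁ q * ta c₂ q * cq c₁ c₂ q N / (Nat.totient q : ℂ) ^ 2 := by
    unfold KK
    refine sum_congr ?_ (fun _ _ => rfl)
    ext q
    simp only [mem_filter]
  rw [hdef]
  clear hdef
  generalize Nat.lcm c₁.r c₂.r = R at *
  have hRpos : (0 : ℝ) < R := by exact_mod_cast Nat.pos_of_ne_zero hR0
  have h1 : ∑ q ∈ (Icc 1 ⌊P⌋₊).filter (fun q => c₁.r ∣ q ∧ c₂.r ∣ q),
      ta c₁ q * ta c₂ q * cq c₁ c₂ q N / (Nat.totient q : ℂ) ^ 2 =
      ∑ s ∈ Icc 1 ⌊P / R⌋₊, ta c₁ (R * s) * ta c₂ (R * s) * cq c₁ c₂ (R * s) N /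
        (Nat.totient (R * s) : ℂ) ^ 2 := by
    refine (sum_congr (s₂ := (Icc 1 ⌊P / R⌋₊).image (fun s => R * s)) ?_ (fun _ _ => rfl)).trans
      (sum_image ?_)
    · ext q
      simp only [mem_filter, mem_Icc, mem_image, hmem]
      constructor
      · rintro ⟨⟨hq1, hq2⟩, s, rfl⟩
        refine ⟨s, ⟨?_, ?_⟩, rfl⟩
        · rcases Nat.eq_zero_or_pos s with h | h
          · rw [h, mul_zero] at hq1
            omega
          · exact h
        · rw [Nat.le_floor_iff (by positivity), le_div_iff₀ hRpos]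
          have := (Nat.le_floor_iff (by linarith)).mp hq2
          push_cast at this
          linarith
      · rintro ⟨s, ⟨hs1, hs2⟩, rfl⟩
        refine ⟨⟨Nat.mul_pos (Nat.pos_of_ne_zero hR0) hs1, ?_⟩, dvd_mul_right R s⟩
        rw [Nat.le_floor_iff (by positivity), le_div_iff₀ hRpos] at hs2
        rw [Nat.le_floor_iff (by linarith)]
        push_cast
        linarith
    · intro x _ y _ hxy
      exact Nat.eq_of_mul_eq_mul_left (Nat.pos_of_ne_zero hR0) hxy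
  rw [h1]
  have h2 : GS R (P / R) N = ∑ s ∈ Icc 1 ⌊P / R⌋₊, (if Squarefree s ∧ Nat.Coprime s R then
      (cR s N : ℝ) / (Nat.totient s : ℝ) ^ 2 else 0) := by
    unfold GS
    rw [sum_filter]
  rw [h2, mul_sum, Complex.ofReal_sum, sum_mul]
  refine sum_congr rfl fun s hs => ?_
  have hs1 : 1 ≤ s := (mem_Icc.mp hs).1
  by_cases h : Squarefree s ∧ Nat.Coprime s R
  · rw [(hTrf' s hs1).1 h.1 h.2, if_pos h, hTrb', Nat.totient_mul h.2.symm]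
    have e1 : (Nat.totient R : ℂ) ≠ 0 := by
      exact_mod_cast (Nat.totient_pos.mpr (Nat.pos_of_ne_zero hR0)).ne'
    have e2 : (Nat.totient s : ℂ) ≠ 0 := by
      exact_mod_cast (Nat.totient_pos.mpr hs1).ne'
    push_cast
    field_simp
  · rw [(hTrf' s hs1).2 h, if_neg h]
    simp

theorem hKfo : StTrf → StTrb → StTwb → StSer → StKfo := by
  classical
  intro hTrf hTrb hTwb hSer
  refine ⟨fun c₁ c₂ P N hP => kfo_eq hTrf hTrb c₁ c₂ P N hP, ?_⟩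
  obtain ⟨C, hC, hSer⟩ := hSer
  refine ⟨C, hC, fun c₁ c₂ P N hP hN hNe => ?_⟩
  rw [kfo_eq hTrf hTrb c₁ c₂ P N hP]
  have hR0 : Nat.lcm c₁.r c₂.r ≠ 0 := Nat.lcm_ne_zero c₁.hr c₂.hr
  generalize Nat.lcm c₁.r c₂.r = R at *
  have hRpos : (0 : ℝ) < R := by exact_mod_cast Nat.pos_of_ne_zero hR0
  have hR1 : 1 ≤ R := Nat.pos_of_ne_zero hR0
  have h1 := (hSer R N (P / R) hR1 hN hNe (by positivity)).1
  have h2 := hTwb.1 c₁ c₂ R N
  have h3 := hTwb.2 R N hR1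
  rw [norm_mul, Complex.norm_real, Real.norm_eq_abs, RCLike.norm_conj, abs_mul,
    abs_of_nonneg (by positivity : (0 : ℝ) ≤ (R : ℝ) / (Nat.totient R : ℝ) ^ 2)]
  have h4 : |GS R (P / R) N| ≤ ∑ s ∈ (Icc 1 ⌊P / R⌋₊).filter
      (fun s => Squarefree s ∧ Nat.Coprime s R), |(cR s N : ℝ)| / (Nat.totient s : ℝ) ^ 2 := by
    unfold GS
    refine (abs_sum_le_sum_abs _ _).trans (le_of_eq ?_)
    refine sum_congr ?_ fun s _ => ?_
    · ext s
      simp only [mem_filter]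
    · rw [abs_div, abs_of_nonneg (by positivity : (0 : ℝ) ≤ (Nat.totient s : ℝ) ^ 2)]
  have h5 : (0 : ℝ) ≤ (R : ℝ) / (Nat.totient R : ℝ) ^ 2 := by positivity
  calc (R : ℝ) / (Nat.totient R : ℝ) ^ 2 * |GS R (P / R) N| * ‖tw c₁ c₂ R N‖
      ≤ (R : ℝ) / (Nat.totient R : ℝ) ^ 2 * (∑ s ∈ (Icc 1 ⌊P / R⌋₊).filter
        (fun s => Squarefree s ∧ Nat.Coprime s R), |(cR s N : ℝ)| / (Nat.totient s : ℝ) ^ 2) *
        nu R N := by
        refine mul_le_mul (mul_le_mul_of_nonneg_left h4 h5) h2 (norm_nonneg _) ?_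
        exact mul_nonneg h5 (sum_nonneg fun _ _ => by positivity)
    _ = SPr R N * ∑ s ∈ (Icc 1 ⌊P / R⌋₊).filter
        (fun s => Squarefree s ∧ Nat.Coprime s R), |(cR s N : ℝ)| / (Nat.totient s : ℝ) ^ 2 := by
        rw [← h3]
        ring
    _ ≤ C * SS N := by
        refine le_trans (le_of_eq ?_) h1
        congr 1

end Pool.Agent.Helper71.MV
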